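import Pool.Agent.Helper37.EQ.Spec
import Pool.Agent.Helper13.MAH.S5

/-!
# EQ, part EBA: the entropy bound without the lens
-/

set_option autoImplicit false

noncomputable section

open MeasureTheory Filter Topology Set
open scoped ENNReal InnerProductSpace Pointwise

namespace Pool.Agent.Helper63.EQ.EBA

open Helper82.MAH Helper37.EQ

variable {d : ℕ}

lemma e_nonneg (K : CC d) : ∀ v ∈ K.C, 0 ≤ ⟪K.e, v⟫_ℝ := by
  intro v hv
  by_cases h : v = 0
  · subst h; simp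
  · exact (K.pos v hv h).le

lemma cl_mono (K : CC d) (a b : ℝ) (f : E d → ℝ) (hf : Cl K a b f) :
    Cl K (max a b) (max a b) f := by
  intro x v hv
  have h0 := e_nonneg K v hv
  obtain ⟨h1, h2⟩ := hf x v hv
  exact ⟨h1.trans (by nlinarith [mul_le_mul_of_nonneg_right (le_max_left a b) h0]),
    h2.trans (by nlinarith [mul_le_mul_of_nonneg_right (le_max_right a b) h0])⟩

lemma cl_cont (h2 : S_CLS) (K : CC d) {a b : ℝ} (ha : 0 < a) (hb : 0 < b) {f : E d → ℝ}
    (hf : Cl K a b f) : Continuous f := by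
  obtain ⟨-, -, c3⟩ := h2 d K a b ha hb
  obtain ⟨c, hc, h⟩ := c3 f hf
  have : LipschitzWith ⟨c, hc.le⟩ f := LipschitzWith.of_dist_le_mul fun x y => by
    rw [Real.dist_eq, dist_eq_norm]; exact h x y
  exact this.continuous

lemma sg_nrm (h1 : S_NRM) (h2 : S_CLS) (K : CC d) {a b : ℝ} (ha1 : 1 ≤ a) (hb1 : 1 ≤ b) :
    SG K (nrm K a b) := by
  obtain ⟨n1, -⟩ := h1 d K a b (by linarith) (by linarith)
  obtain ⟨-, m2, -⟩ := h1 d K 1 1 one_pos one_pos
  obtain ⟨c1, -⟩ := h2 d K a b (by linarith) (by linarith)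
  refine ⟨⟨_, cl_mono K a b _ c1⟩, 0, fun x => ?_⟩
  obtain ⟨u, hu, v, hv, hx, hNx⟩ := n1 x
  rw [hNx]
  have := m2 x u hu v hv hx
  have hu0 := e_nonneg K u hu
  have hv0 := e_nonneg K v hv
  nlinarith

lemma int_nrm (h1 : S_NRM) (h2 : S_CLS) (h3 : S_ITG) (K : CC d) {a b : ℝ} (ha1 : 1 ≤ a)
    (hb1 : 1 ≤ b) : Integrable (fun x => Real.exp (-nrm K a b x)) :=
  (h3 d K _ _ _ (sg_nrm h1 h2 K ha1 hb1)
    (cl_mono K a b _ (h2 d K a b (by linarith) (by linarith)).1)).1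

/-- EBA -/
theorem main (h1 : S_NRM) (h2 : S_CLS) (h3 : S_ITG) : Q_EBA := by
  intro d K s G hs0 hs1 hG hGc
  have h1s : 0 < 1 - s := by linarith
  set a := 1 / (1 - s) with ha
  set b := 1 / s with hb
  have ha1 : 1 ≤ a := by rw [ha, le_div_iff₀ h1s]; linarith
  have hb1 : 1 ≤ b := by rw [hb, le_div_iff₀ hs0]; linarith
  have ha0 : 0 < a := by linarith
  have hb0 : 0 < b := by linarith
  obtain ⟨-, -, -, -, n5, -⟩ := h1 d K a b ha0 hb0
  obtain ⟨c1, c2, -⟩ := h2 d K a b ha0 hb0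
  have hNc : Continuous (nrm K a b) := cl_cont h2 K ha0 hb0 c1
  have hGcont : Continuous G := cl_cont h2 K ha0 hb0 hGc
  have hNi := int_nrm h1 h2 h3 K ha1 hb1
  have hGi := (h3 d K G G _ hG.1 (cl_mono K a b G hGc)).2
  have hS5 := Pool.Agent.Helper13.MAH.S5 (volume : Measure (E d)) G (nrm K a b)
    hGcont.measurable hNc.measurable (fun c hc x => n5 c hc.le x) ((c2 G).1 hGc) hG.2
    (hGi.congr (ae_of_all _ fun x => mul_comm _ _)) hNi
  have hE : ∫ x, G x * Real.exp (-G x) = Ent G := by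
    rw [Ent]; congr 1; ext x; ring
  rw [hE, finrank_euclideanSpace, Fintype.card_fin] at hS5
  rw [A]
  exact hS5

end Pool.Agent.Helper63.EQ.EBA

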