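import Pool.Agent.Helper63.EQ.EBA
import Pool.Agent.Helper54.MAH.EB

/-!
# EQ, part LEN: the lens
-/

set_option autoImplicit false

noncomputable section

open MeasureTheory Filter Topology Set
open scoped ENNReal InnerProductSpace Pointwise

namespace Pool.Agent.Helper63.EQ.LEN

open Helper82.MAH Helper37.EQ Pool.Agent.Helper63.EQ.EBA

/-- LEN -/
theorem main (h1 : S_NRM) (h2 : S_CLS) (h3 : S_ITG) : Q_LEN := by
  intro d K s hs0 hs1
  have h1s : 0 < 1 - s := by linarith
  rw [A]
  set a := 1 / (1 - s) with ha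
  set b := 1 / s with hb
  have ha1 : 1 ≤ a := by rw [ha, le_div_iff₀ h1s]; linarith
  have hb1 : 1 ≤ b := by rw [hb, le_div_iff₀ hs0]; linarith
  have ha0 : 0 < a := by linarith
  have hb0 : 0 < b := by linarith
  obtain ⟨-, n2, -, -, n5, -⟩ := h1 d K a b ha0 hb0
  obtain ⟨c1, -⟩ := h2 d K a b ha0 hb0
  have hNc : Continuous (nrm K a b) := cl_cont h2 K ha0 hb0 c1
  have hNi := int_nrm h1 h2 h3 K ha1 hb1
  have hcv : Convex ℝ K.C := by
    intro x hx y hy α β hα hβ _
    exact K.add_mem _ (K.smul_mem α hα x hx) _ (K.smul_mem β hβ y hy)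
  have hl := Pool.Agent.Helper68.MAH.Lens.lens (n := d) K.closed hcv K.zero_mem
    (fun v hv c hc => K.smul_mem c hc v hv) K.int (e := K.e) K.pos (t := 1 - s) h1s (by linarith)
  have hsub : Pool.Agent.Helper68.MAH.Lens.ballN K.C K.e (1 - s) ⊆ {x | nrm K a b x ≤ 1} := by
    rintro x ⟨u, hu, v, hv, hx, hle⟩
    show nrm K a b x ≤ 1
    refine (n2 x u hu v hv hx).trans ?_
    rw [show (1 : ℝ) - (1 - s) = s by ring] at hle
    rw [ha, hb, one_div_mul_eq_div, one_div_mul_eq_div]
    exact hle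
  have hI := Pool.Agent.Helper54.MAH.EB.gauge_int (nrm K a b) hNc (fun c hc x => n5 c hc.le x)
  have hIr : ∫⁻ y, ENNReal.ofReal (Real.exp (-(nrm K a b y))) =
      ENNReal.ofReal (∫ x, Real.exp (-nrm K a b x)) :=
    (ofReal_integral_eq_lintegral_ofReal hNi (ae_of_all _ fun x => (Real.exp_pos _).le)).symm
  rw [hIr] at hI
  have hfin : volume (Vst K) < ∞ := by
    refine lt_of_le_of_lt (measure_mono ?_)
      (Pool.Agent.Helper68.MAH.Lens.isCompact_bodyP (e := K.e) K.int h1s
        (show 1 - s < 1 by linarith)).measure_lt_top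
    intro y hy v hv
    obtain ⟨p1, p2⟩ := hy v hv
    have h0 := e_nonneg K v hv
    constructor
    · have : 0 ≤ ⟪K.e, v⟫_ℝ / (1 - (1 - s)) := div_nonneg h0 (by linarith)
      linarith
    · refine p2.trans ?_
      rw [le_div_iff₀ h1s]
      nlinarith
  have hbig : 1 ≤ ENNReal.ofReal ((∫ x, Real.exp (-nrm K a b x)) * (volume (Vst K)).toReal) := by
    rw [ENNReal.ofReal_mul (integral_nonneg fun x => (Real.exp_pos _).le),
      ENNReal.ofReal_toReal hfin.ne]
    refine hl.trans ?_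
    refine mul_le_mul' ?_ le_rfl
    refine le_trans ?_ hI
    rw [ENNReal.ofReal_natCast]
    exact mul_le_mul' le_rfl (measure_mono hsub)
  rw [← ENNReal.ofReal_one, ENNReal.ofReal_le_ofReal_iff'] at hbig
  have hbig' : 1 ≤ (∫ x, Real.exp (-nrm K a b x)) * (volume (Vst K)).toReal := by
    rcases hbig with h | h
    · exact h
    · norm_num at h
  have hIpos : 0 < ∫ x, Real.exp (-nrm K a b x) := integral_exp_pos hNi
  have hVpos : 0 < (volume (Vst K)).toReal := by
    by_contra hc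
    have : (volume (Vst K)).toReal ≤ 0 := not_lt.1 hc
    nlinarith
  exact ⟨hIpos, hVpos, hbig'⟩

end Pool.Agent.Helper63.EQ.LEN

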